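import Mathlib

set_option autoImplicit false

open Matrix MeasureTheory

open scoped ContDiff

namespace Pool.Agent.Results.MP_92a303_gt.KernelMapNoExtension

noncomputable section

/-- `2π` is positive: needed for the standard (Riemannian) measure on `ℝ/2πℤ`. -/
instance factTwoPiPos : Fact (0 < 2 * Real.pi) := ⟨Real.two_pi_pos⟩

/-- The flat three-torus `T³ = (ℝ/2πℤ)³`, a closed oriented Riemannian 3-manifold. -/
abbrev T3 : Type := Fin 3 → AddCircle (2 * Real.pi)

/-- The universal covering `ℝ³ → T³` (a local isometry). -/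
def proj (y : Fin 3 → ℝ) : T3 := fun i => (y i : AddCircle (2 * Real.pi))

/-- Clifford multiplication by the parallel orthonormal frame `e₁,e₂,e₃` of `T³` on the
trivial spinor bundle `S = T³ × ℂ²`: the three unit quaternions `i,j,k` as elements of `SU(2)`;
`c i * c j + c j * c i = -2 δᵢⱼ` and `c 0 * c 1 = c 2`. -/
def cliff : Fin 3 → Matrix (Fin 2) (Fin 2) ℂ :=
  ![!![Complex.I, 0; 0, -Complex.I], !![0, 1; -1, 0], !![0, Complex.I; Complex.I, 0]]

/-- The Clifford relations. -/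
lemma cliff_rel (i j : Fin 3) : cliff i * cliff j + cliff j * cliff i =
    if i = j then (-2 : ℂ) • (1 : Matrix (Fin 2) (Fin 2) ℂ) else 0 := by
  fin_cases i <;> fin_cases j <;> ext a b <;> fin_cases a <;> fin_cases b <;>
    simp [cliff] <;> norm_num

/-- `|M|² = tr (M Mᴴ)`. -/
def normSqM {n : ℕ} (M : Matrix (Fin 2) (Fin n) ℂ) : ℝ := ∑ a, ∑ b, ‖M a b‖ ^ 2

/-- `μ(Ψ) = Ψ Ψ* - ½ |Ψ|² id`. -/
def mu {n : ℕ} (M : Matrix (Fin 2) (Fin n) ℂ) : Matrix (Fin 2) (Fin 2) ℂ :=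
  M * Mᴴ - ((normSqM M / 2 : ℝ) : ℂ) • (1 : Matrix (Fin 2) (Fin 2) ℂ)

/-- The partial derivative in the direction of the frame vector `e_j` at the point `proj y` of a
matrix valued function on `T³`. -/
def pd {n : ℕ} (j : Fin 3) (Ψ : T3 → Matrix (Fin 2) (Fin n) ℂ) (y : Fin 3 → ℝ) :
    Matrix (Fin 2) (Fin n) ℂ :=
  Matrix.of fun a b => fderiv ℝ (fun z : Fin 3 → ℝ => Ψ (proj z) a b) y (Pi.single j 1)

/-- The covariant derivative `∇_j Ψ = ∂_j Ψ + i A_j Ψ - Ψ B_j` on `Hom(E, S ⊗ L)` in the direction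
`e_j`, at the point `proj y`.  Here `L` is the trivial `U(1)`-bundle with the connection
`d + i Σ A_j dx_j`, `E` is the trivial bundle `T³ × ℂⁿ` with the connection `d + Σ B_j dx_j`, and
the spin connection of the flat torus is trivial. -/
def cov {n : ℕ} (B : Fin 3 → T3 → Matrix (Fin n) (Fin n) ℂ) (A : Fin 3 → T3 → ℝ)
    (Ψ : T3 → Matrix (Fin 2) (Fin n) ℂ) (j : Fin 3) (y : Fin 3 → ℝ) :
    Matrix (Fin 2) (Fin n) ℂ :=
  pd j Ψ y + (Complex.I * (A j (proj y) : ℂ)) • Ψ (proj y) - Ψ (proj y) * B j (proj y)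

/-- The twisted Dirac operator `D_{A⊗B} Ψ = Σ_j c(e_j) ∇_j Ψ` at the point `proj y`. -/
def dirac {n : ℕ} (B : Fin 3 → T3 → Matrix (Fin n) (Fin n) ℂ) (A : Fin 3 → T3 → ℝ)
    (Ψ : T3 → Matrix (Fin 2) (Fin n) ℂ) (y : Fin 3 → ℝ) : Matrix (Fin 2) (Fin n) ℂ :=
  ∑ j, cliff j * cov B A Ψ j y

/-- `B` is a smooth `SU(n)`-connection on the trivial bundle `E = T³ × ℂⁿ`: the components
`B_j` are smooth functions on `T³` with values in `su(n)`. -/
structure IsSUConnection {n : ℕ} (B : Fin 3 → T3 → Matrix (Fin n) (Fin n) ℂ) : Prop where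
  smooth : ∀ j a b, ContDiff ℝ ∞ (fun y : Fin 3 → ℝ => B j (proj y) a b)
  skew : ∀ j x, (B j x)ᴴ = - B j x
  trace : ∀ j x, (B j x).trace = 0

/-- `(A, Ψ, 0)` is a solution over `T³ \ Z` of the blown-up Seiberg-Witten equations with `n`
spinors at `α = 0`, for the flat torus with its trivial spin structure, the trivial `U(1)`-bundle
`L` and the trivial `SU(n)`-bundle `E` with connection `B`: `Z` is closed and nowhere dense, `A` is
a smooth connection on `L` over `T³ \ Z`, `Ψ` is a smooth section of `Hom(E, S ⊗ L)` over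
`T³ \ Z`, `‖Ψ‖_{L²} = 1`, `D_{A⊗B} Ψ = 0` and `μ(Ψ) = 0` on `T³ \ Z`, and `|Ψ|` extends to a
continuous function on `T³` with zero set exactly `Z`.  (The values of `A` and `Ψ` on `Z` play no
role.) -/
structure IsSolution {n : ℕ} (B : Fin 3 → T3 → Matrix (Fin n) (Fin n) ℂ) (Z : Set T3)
    (A : Fin 3 → T3 → ℝ) (Ψ : T3 → Matrix (Fin 2) (Fin n) ℂ) : Prop where
  closed : IsClosed Z
  nowhereDense : IsNowhereDense Z
  smoothA : ∀ j, ContDiffOn ℝ ∞ (fun y : Fin 3 → ℝ => A j (proj y)) (proj ⁻¹' Zᶜ)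
  smoothΨ : ∀ a b, ContDiffOn ℝ ∞ (fun y : Fin 3 → ℝ => Ψ (proj y) a b) (proj ⁻¹' Zᶜ)
  normalised : ∫ x in Zᶜ, normSqM (Ψ x) = 1
  dirac_eq : ∀ y, proj y ∉ Z → dirac B A Ψ y = 0
  mu_eq : ∀ x, x ∉ Z → mu (Ψ x) = 0
  blowup : ∃ g : T3 → ℝ, Continuous g ∧ (∀ x, x ∉ Z → g x = √(normSqM (Ψ x))) ∧
    ∀ x, g x = 0 ↔ x ∈ Z

/-- The Grassmannian `Gr_k(ℂⁿ)`, realised (with its usual topology, the subspace topology of the
space of matrices) as the space of orthogonal projections of rank `k`; the projection `P`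
represents the subspace `range P`. -/
def Gr (k n : ℕ) : Type :=
  {P : Matrix (Fin n) (Fin n) ℂ // P.IsHermitian ∧ P * P = P ∧ P.rank = k}

instance (k n : ℕ) : TopologicalSpace (Gr k n) :=
  inferInstanceAs (TopologicalSpace
    {P : Matrix (Fin n) (Fin n) ℂ // P.IsHermitian ∧ P * P = P ∧ P.rank = k})

/-- The `k`-dimensional subspace of `ℂⁿ` represented by a point of the Grassmannian. -/
def Gr.toSubmodule {k n : ℕ} (P : Gr k n) : Submodule ℂ (Fin n → ℂ) :=
  LinearMap.range P.1.mulVecLin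

/-- The kernel map: `Φ₀(x) = ker Ψ_x`. -/
def kernelMap {n : ℕ} (Ψ : T3 → Matrix (Fin 2) (Fin n) ℂ) (x : T3) : Submodule ℂ (Fin n → ℂ) :=
  LinearMap.ker (Ψ x).mulVecLin

/-! ### The explicit data -/

/-- `sin` as a function on `ℝ/2πℤ`. -/
def sn : AddCircle (2 * Real.pi) → ℝ := Real.sin_periodic.lift

/-- `cos` as a function on `ℝ/2πℤ`. -/
def cs : AddCircle (2 * Real.pi) → ℝ := Real.cos_periodic.lift

@[simp] lemma sn_coe (t : ℝ) : sn (t : AddCircle (2 * Real.pi)) = Real.sin t := rfl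

@[simp] lemma cs_coe (t : ℝ) : cs (t : AddCircle (2 * Real.pi)) = Real.cos t := rfl

@[simp] lemma sn_zero : sn 0 = 0 := Real.sin_zero

@[simp] lemma cs_zero : cs 0 = 1 := Real.cos_zero

lemma continuous_sn : Continuous sn :=
  continuous_coinduced_dom.2 Real.continuous_sin

lemma continuous_cs : Continuous cs :=
  continuous_coinduced_dom.2 Real.continuous_cos

lemma sn_sq_add_cs_sq (t : AddCircle (2 * Real.pi)) : sn t ^ 2 + cs t ^ 2 = 1 := by
  induction t using QuotientAddGroup.induction_on with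
  | H t => exact Real.sin_sq_add_cos_sq t

@[simp] lemma proj_apply (y : Fin 3 → ℝ) (i : Fin 3) :
    proj y i = (y i : AddCircle (2 * Real.pi)) := rfl

lemma continuous_proj : Continuous proj :=
  continuous_pi fun i => (AddCircle.continuous_mk' _).comp (continuous_apply i)

/-- coefficients of the sines -/
def cS : Fin 2 → Fin 4 → Fin 3 → ℂ :=
  ![![![0, 0, 0], ![0, Complex.I, 1], ![0, Complex.I, 0], ![1, 0, 0]],
    ![![0, Complex.I, -1], ![0, 0, 0], ![-1, 0, 0], ![0, -Complex.I, 0]]]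

/-- coefficients of the cosines -/
def cC : Fin 2 → Fin 4 → Fin 3 → ℂ :=
  ![![![0, Complex.I, -Complex.I], ![0, 0, 0], ![0, 0, 0], ![Complex.I, -Complex.I, 0]],
    ![![0, 0, 0], ![0, -Complex.I, Complex.I], ![Complex.I, -Complex.I, 0], ![0, 0, 0]]]

/-- The unnormalised solution for `n = 4`. -/
def Psi0 (x : T3) : Matrix (Fin 2) (Fin 4) ℂ :=
  Matrix.of fun a b => ∑ k, (cS a b k * (sn (x k) : ℂ) + cC a b k * (cs (x k) : ℂ))

/-- The first column block corresponds to the imaginary quaternion `p1 i + p2 j + p3 k`, the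
second one to `q1 i + q2 j + q3 k`. -/
def quatM (p1 p2 p3 q1 q2 q3 : ℝ) : Matrix (Fin 2) (Fin 4) ℂ :=
  !![Complex.I * p1, p2 + Complex.I * p3, Complex.I * q1, q2 + Complex.I * q3;
    -p2 + Complex.I * p3, -(Complex.I * p1), -q2 + Complex.I * q3, -(Complex.I * q1)]

lemma Psi0_eq (x : T3) : Psi0 x = quatM (cs (x 1) - cs (x 2)) (sn (x 2)) (sn (x 1))
    (sn (x 1)) (sn (x 0)) (cs (x 0) - cs (x 1)) := by
  ext a b
  fin_cases a <;> fin_cases b <;>
    simp [Psi0, quatM, cS, cC, Fin.sum_univ_three] <;> ring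

/-- the constant connection matrices for `n = 4`: `B_j = diag(c_j, c_j)`. -/
def B0 (j : Fin 3) : Matrix (Fin 4) (Fin 4) ℂ :=
  !![cliff j 0 0, cliff j 0 1, 0, 0; cliff j 1 0, cliff j 1 1, 0, 0;
    0, 0, cliff j 0 0, cliff j 0 1; 0, 0, cliff j 1 0, cliff j 1 1]

lemma hasFDerivAt_trig (α β : Fin 3 → ℂ) (y : Fin 3 → ℝ) :
    HasFDerivAt (fun z : Fin 3 → ℝ =>
        ∑ k, (α k * ((Real.sin (z k) : ℝ) : ℂ) + β k * ((Real.cos (z k) : ℝ) : ℂ)))
      (∑ k, (α k • (Complex.ofRealCLM.comp ((Real.cos (y k)) •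
          (ContinuousLinearMap.proj (R := ℝ) (φ := fun _ : Fin 3 => ℝ) k))) +
        β k • (Complex.ofRealCLM.comp ((-Real.sin (y k)) •
          (ContinuousLinearMap.proj (R := ℝ) (φ := fun _ : Fin 3 => ℝ) k))))) y := by
  apply HasFDerivAt.fun_sum
  intro k _
  have hk : HasFDerivAt (fun z : Fin 3 → ℝ => z k)
      (ContinuousLinearMap.proj (R := ℝ) (φ := fun _ : Fin 3 => ℝ) k) y :=
    (ContinuousLinearMap.proj (R := ℝ) (φ := fun _ : Fin 3 => ℝ) k).hasFDerivAt
  have h1 : HasFDerivAt (fun z : Fin 3 → ℝ => ((Real.sin (z k) : ℝ) : ℂ))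
      (Complex.ofRealCLM.comp ((Real.cos (y k)) •
          (ContinuousLinearMap.proj (R := ℝ) (φ := fun _ : Fin 3 => ℝ) k))) y :=
    (Complex.ofRealCLM.hasFDerivAt).comp y hk.sin
  have h2 : HasFDerivAt (fun z : Fin 3 → ℝ => ((Real.cos (z k) : ℝ) : ℂ))
      (Complex.ofRealCLM.comp ((-Real.sin (y k)) •
          (ContinuousLinearMap.proj (R := ℝ) (φ := fun _ : Fin 3 => ℝ) k))) y :=
    (Complex.ofRealCLM.hasFDerivAt).comp y hk.cos
  exact (h1.const_mul (α k)).add (h2.const_mul (β k))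

lemma fderiv_trig (α β : Fin 3 → ℂ) (y : Fin 3 → ℝ) (j : Fin 3) :
    fderiv ℝ (fun z : Fin 3 → ℝ =>
        ∑ k, (α k * ((Real.sin (z k) : ℝ) : ℂ) + β k * ((Real.cos (z k) : ℝ) : ℂ))) y
        (Pi.single j 1) = α j * (Real.cos (y j) : ℂ) - β j * (Real.sin (y j) : ℂ) := by
  rw [(hasFDerivAt_trig α β y).fderiv]
  simp only [_root_.sum_apply]
  rw [Finset.sum_eq_single j]
  · simp; ring
  · intro k _ hk
    simp [Pi.single_eq_of_ne hk]
  · simp


section general

variable (m : ℕ)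

/-- The unnormalised solution for `n = 4 + m`, scaled by `κ`. -/
def Psi (κ : ℝ) (x : T3) : Matrix (Fin 2) (Fin (4 + m)) ℂ :=
  Matrix.of fun a => Fin.append (fun b => (κ : ℂ) * Psi0 x a b) (fun _ : Fin m => 0)

/-- The constant connection matrices for `n = 4 + m`. -/
def BB (j : Fin 3) (_ : T3) : Matrix (Fin (4 + m)) (Fin (4 + m)) ℂ :=
  Matrix.of (Fin.append (fun a => Fin.append (fun b => B0 j a b) (fun _ : Fin m => 0))
    (fun _ : Fin m => 0))

/-- The zero set. -/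
def ZZ : Set T3 := {x | sn (x 0) = 0 ∧ sn (x 1) = 0 ∧ sn (x 2) = 0 ∧ cs (x 0) = cs (x 1) ∧
  cs (x 1) = cs (x 2)}

lemma Psi_castAdd (κ : ℝ) (x : T3) (a : Fin 2) (b : Fin 4) :
    Psi m κ x a (Fin.castAdd m b) = (κ : ℂ) * Psi0 x a b := by
  simp [Psi]

lemma Psi_natAdd (κ : ℝ) (x : T3) (a : Fin 2) (b : Fin m) :
    Psi m κ x a (Fin.natAdd 4 b) = 0 := by
  simp [Psi]

lemma BB_cc (j : Fin 3) (x : T3) (a b : Fin 4) :
    BB m j x (Fin.castAdd m a) (Fin.castAdd m b) = B0 j a b := by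
  simp [BB]

lemma BB_cn (j : Fin 3) (x : T3) (a : Fin 4) (b : Fin m) :
    BB m j x (Fin.castAdd m a) (Fin.natAdd 4 b) = 0 := by
  simp [BB]

lemma BB_n (j : Fin 3) (x : T3) (a : Fin m) (b : Fin (4 + m)) :
    BB m j x (Fin.natAdd 4 a) b = 0 := by
  simp [BB]

/-- the basic `4 × 4` algebra -/
lemma alg_dirac (y : Fin 3 → ℝ) (a : Fin 2) (b : Fin 4) :
    ∑ j, ∑ a', cliff j a a' * ((cS a' b j * (Real.cos (y j) : ℂ) -
      cC a' b j * (Real.sin (y j) : ℂ)) - ∑ k, Psi0 (proj y) a' k * B0 j k b) = 0 := by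
  rw [Psi0_eq]
  fin_cases a <;> fin_cases b <;>
    simp [Fin.sum_univ_three, Fin.sum_univ_four, quatM, cliff, cS, cC, B0] <;>
    ring_nf <;> simp

lemma fderiv_Psi (κ : ℝ) (y : Fin 3 → ℝ) (j : Fin 3) (a : Fin 2) (b : Fin 4) :
    pd j (Psi m κ) y a (Fin.castAdd m b) = (κ : ℂ) * (cS a b j * (Real.cos (y j) : ℂ) -
      cC a b j * (Real.sin (y j) : ℂ)) := by
  have h : (fun z : Fin 3 → ℝ => Psi m κ (proj z) a (Fin.castAdd m b)) =
      fun z : Fin 3 → ℝ => (κ : ℂ) * ∑ k, (cS a b k * ((Real.sin (z k) : ℝ) : ℂ) +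
        cC a b k * ((Real.cos (z k) : ℝ) : ℂ)) := by
    funext z
    rw [Psi_castAdd]
    simp [Psi0]
  simp only [pd, Matrix.of_apply]
  rw [h, fderiv_const_mul (hasFDerivAt_trig _ _ y).differentiableAt]
  rw [_root_.smul_apply, fderiv_trig]
  simp

lemma fderiv_Psi_nat (κ : ℝ) (y : Fin 3 → ℝ) (j : Fin 3) (a : Fin 2) (b : Fin m) :
    pd j (Psi m κ) y a (Fin.natAdd 4 b) = 0 := by
  have h : (fun z : Fin 3 → ℝ => Psi m κ (proj z) a (Fin.natAdd 4 b)) = fun _ => 0 := by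
    funext z
    rw [Psi_natAdd]
  simp only [pd, Matrix.of_apply]
  rw [h]
  simp

lemma dirac_Psi (κ : ℝ) (y : Fin 3 → ℝ) : dirac (BB m) 0 (Psi m κ) y = 0 := by
  ext a b
  refine Fin.addCases (fun b => ?_) (fun b => ?_) b
  · have key := alg_dirac y a b
    have : dirac (BB m) 0 (Psi m κ) y a (Fin.castAdd m b) = (κ : ℂ) *
        ∑ j, ∑ a', cliff j a a' * ((cS a' b j * (Real.cos (y j) : ℂ) -
          cC a' b j * (Real.sin (y j) : ℂ)) - ∑ k, Psi0 (proj y) a' k * B0 j k b) := by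
      simp only [dirac, Matrix.sum_apply, Matrix.mul_apply, cov, Matrix.sub_apply,
        fderiv_Psi, Pi.zero_apply, Complex.ofReal_zero, mul_zero, zero_smul,
        add_zero, Fin.sum_univ_add, Psi_castAdd, Psi_natAdd, BB_cc, BB_n,
        Finset.sum_const_zero]
      rw [Finset.mul_sum]
      refine Finset.sum_congr rfl fun j _ => ?_
      rw [Finset.mul_sum]
      refine Finset.sum_congr rfl fun a' _ => ?_
      simp only [mul_assoc]
      rw [← Finset.mul_sum]
      ring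
    rw [this, key]
    simp
  · simp only [dirac, Matrix.sum_apply, Matrix.mul_apply, cov, Matrix.sub_apply,
        fderiv_Psi_nat, Pi.zero_apply, Complex.ofReal_zero, mul_zero, zero_smul,
        Matrix.zero_apply, add_zero, Fin.sum_univ_add, BB_cn, BB_n,
        Finset.sum_const_zero, sub_zero]

/-- squared norm of `p` plus squared norm of `q` -/
def NN (x : T3) : ℝ := (cs (x 1) - cs (x 2)) ^ 2 + sn (x 2) ^ 2 + sn (x 1) ^ 2 +
  (sn (x 1) ^ 2 + sn (x 0) ^ 2 + (cs (x 0) - cs (x 1)) ^ 2)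

lemma normSqM_quatM (p1 p2 p3 q1 q2 q3 : ℝ) : normSqM (quatM p1 p2 p3 q1 q2 q3) =
    2 * (p1 ^ 2 + p2 ^ 2 + p3 ^ 2 + (q1 ^ 2 + q2 ^ 2 + q3 ^ 2)) := by
  simp only [normSqM, Fin.sum_univ_two, Fin.sum_univ_four, ← Complex.normSq_eq_norm_sq]
  simp [quatM, Complex.normSq_apply]
  ring

lemma quatM_mul (p1 p2 p3 q1 q2 q3 : ℝ) :
    quatM p1 p2 p3 q1 q2 q3 * (quatM p1 p2 p3 q1 q2 q3)ᴴ =
    ((p1 ^ 2 + p2 ^ 2 + p3 ^ 2 + (q1 ^ 2 + q2 ^ 2 + q3 ^ 2) : ℝ) : ℂ) •
      (1 : Matrix (Fin 2) (Fin 2) ℂ) := by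
  ext a b
  fin_cases a <;> fin_cases b <;>
    simp [Matrix.mul_apply, Fin.sum_univ_four, quatM] <;> ring_nf <;> simp <;> ring

lemma normSqM_Psi0 (x : T3) : normSqM (Psi0 x) = 2 * NN x := by
  rw [Psi0_eq, normSqM_quatM, NN]

lemma normSqM_Psi (κ : ℝ) (x : T3) : normSqM (Psi m κ x) = κ ^ 2 * (2 * NN x) := by
  rw [← normSqM_Psi0]
  simp only [normSqM, Fin.sum_univ_add, Psi_castAdd, Psi_natAdd]
  simp only [norm_mul, norm_zero, mul_pow]
  simp only [Complex.norm_real, Real.norm_eq_abs, sq_abs, ne_eq, OfNat.ofNat_ne_zero,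
    not_false_eq_true, zero_pow, Finset.sum_const_zero, add_zero, ← Finset.mul_sum]

lemma Psi_mul (κ : ℝ) (x : T3) : Psi m κ x * (Psi m κ x)ᴴ =
    ((κ ^ 2 * NN x : ℝ) : ℂ) • (1 : Matrix (Fin 2) (Fin 2) ℂ) := by
  have h := quatM_mul (cs (x 1) - cs (x 2)) (sn (x 2)) (sn (x 1))
    (sn (x 1)) (sn (x 0)) (cs (x 0) - cs (x 1))
  rw [← Psi0_eq, ← NN] at h
  ext a b
  have hab := congrFun (congrFun h a) b
  simp only [Matrix.mul_apply, Matrix.conjTranspose_apply, Matrix.smul_apply] at hab ⊢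
  simp only [Fin.sum_univ_add, Psi_castAdd, Psi_natAdd, zero_mul, Finset.sum_const_zero, add_zero,
    star_mul']
  have : ∀ i, (κ : ℂ) * Psi0 x a i * (star (κ : ℂ) * star (Psi0 x b i)) =
      ((κ ^ 2 : ℝ) : ℂ) * (Psi0 x a i * star (Psi0 x b i)) := by
    intro i
    have : star (κ : ℂ) = (κ : ℂ) := Complex.conj_ofReal κ
    rw [this]
    push_cast
    ring
  simp only [this]
  rw [← Finset.mul_sum, hab]
  simp [mul_assoc]

lemma mu_Psi (κ : ℝ) (x : T3) : mu (Psi m κ x) = 0 := by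
  rw [mu, Psi_mul, normSqM_Psi, sub_eq_zero]
  congr 2
  ring

end general

lemma NN_nonneg (x : T3) : 0 ≤ NN x := by
  unfold NN; positivity

lemma NN_eq_zero_iff (x : T3) : NN x = 0 ↔ x ∈ ZZ := by
  unfold NN ZZ
  simp only [Set.mem_ofPred_eq]
  constructor
  · intro h
    have h1 : (cs (x 1) - cs (x 2)) ^ 2 = 0 := by
      nlinarith [sq_nonneg (cs (x 1) - cs (x 2)),
        sq_nonneg (sn (x 2)), sq_nonneg (sn (x 1)), sq_nonneg (sn (x 0)),
        sq_nonneg (cs (x 0) - cs (x 1))]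
    have h2 : sn (x 2) ^ 2 = 0 := by
      nlinarith [sq_nonneg (cs (x 1) - cs (x 2)),
        sq_nonneg (sn (x 2)), sq_nonneg (sn (x 1)), sq_nonneg (sn (x 0)),
        sq_nonneg (cs (x 0) - cs (x 1))]
    have h3 : sn (x 1) ^ 2 = 0 := by
      nlinarith [sq_nonneg (cs (x 1) - cs (x 2)),
        sq_nonneg (sn (x 2)), sq_nonneg (sn (x 1)), sq_nonneg (sn (x 0)),
        sq_nonneg (cs (x 0) - cs (x 1))]
    have h4 : sn (x 0) ^ 2 = 0 := by
      nlinarith [sq_nonneg (cs (x 1) - cs (x 2)),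
        sq_nonneg (sn (x 2)), sq_nonneg (sn (x 1)), sq_nonneg (sn (x 0)),
        sq_nonneg (cs (x 0) - cs (x 1))]
    have h5 : (cs (x 0) - cs (x 1)) ^ 2 = 0 := by
      nlinarith [sq_nonneg (cs (x 1) - cs (x 2)),
        sq_nonneg (sn (x 2)), sq_nonneg (sn (x 1)), sq_nonneg (sn (x 0)),
        sq_nonneg (cs (x 0) - cs (x 1))]
    refine ⟨pow_eq_zero_iff (by norm_num) |>.1 h4, pow_eq_zero_iff (by norm_num) |>.1 h3,
      pow_eq_zero_iff (by norm_num) |>.1 h2, ?_, ?_⟩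
    · exact sub_eq_zero.1 (pow_eq_zero_iff (by norm_num) |>.1 h5)
    · exact sub_eq_zero.1 (pow_eq_zero_iff (by norm_num) |>.1 h1)
  · rintro ⟨h0, h1, h2, h3, h4⟩
    rw [h0, h1, h2, h3, h4]
    ring

lemma continuous_NN : Continuous NN := by
  unfold NN
  have hs := continuous_sn
  have hc := continuous_cs
  fun_prop

lemma isClosed_ZZ : IsClosed ZZ := by
  have : ZZ = NN ⁻¹' {0} := by
    ext x
    rw [← NN_eq_zero_iff]
    rfl
  rw [this]
  exact isClosed_singleton.preimage continuous_NN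

lemma nowhereDense_ZZ : IsNowhereDense ZZ := by
  rw [isClosed_ZZ.isNowhereDense_iff]
  by_contra hne
  obtain ⟨x, hx⟩ := Set.nonempty_iff_ne_empty.2 hne
  let h : ℝ → T3 := fun t => Function.update x 0 (x 0 + (t : AddCircle (2 * Real.pi)))
  have hcont : Continuous h := by
    apply Continuous.update continuous_const
    exact continuous_const.add (AddCircle.continuous_mk' _)
  have h0 : h 0 = x := by
    simp [h]
  have hmem : h ⁻¹' (interior ZZ) ∈ nhds (0 : ℝ) := by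
    apply hcont.continuousAt.preimage_mem_nhds
    rw [h0]
    exact isOpen_interior.mem_nhds hx
  obtain ⟨ε, hε, hball⟩ := Metric.mem_nhds_iff.1 hmem
  let t : ℝ := min (ε / 2) 1
  have ht0 : 0 < t := by positivity
  have ht1 : t ≤ 1 := min_le_right _ _
  have htε : t ≤ ε / 2 := min_le_left _ _
  have htb : t ∈ Metric.ball (0 : ℝ) ε := by
    simp only [Metric.mem_ball, dist_zero_right, Real.norm_eq_abs, abs_of_pos ht0]
    linarith
  have hz : h t ∈ ZZ := interior_subset (hball htb)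
  have hx' : x ∈ ZZ := interior_subset hx
  have e1 : sn (x 0 + (t : AddCircle (2 * Real.pi))) = 0 := by
    have := hz.1
    simpa [h] using this
  have e2 : sn (x 0) = 0 := hx'.1
  obtain ⟨s, hs⟩ := QuotientAddGroup.mk_surjective (x 0)
  have hs' : x 0 = (s : AddCircle (2 * Real.pi)) := hs.symm
  rw [hs', ← AddCircle.coe_add, sn_coe, Real.sin_add] at e1
  rw [hs', sn_coe] at e2
  rw [e2] at e1
  have hsint : 0 < Real.sin t := Real.sin_pos_of_pos_of_lt_pi ht0
    (by linarith [Real.pi_gt_three])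
  have hcos : Real.cos s = 0 := by
    have : Real.cos s * Real.sin t = 0 := by linarith
    rcases mul_eq_zero.1 this with h | h
    · exact h
    · exact absurd h hsint.ne'
  have := Real.sin_sq_add_cos_sq s
  rw [e2, hcos] at this
  norm_num at this

/-- The normalisation constant. -/
lemma exists_kappa (m : ℕ) : ∃ κ : ℝ, 0 < κ ∧ ∫ x in ZZᶜ, normSqM (Psi m κ x) = 1 := by
  let I0 : ℝ := ∫ x in ZZᶜ, 2 * NN x
  have hcont : Continuous fun x => 2 * NN x := continuous_const.mul continuous_NN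
  have hint : IntegrableOn (fun x => 2 * NN x) ZZᶜ :=
    (hcont.continuousOn.integrableOn_compact isCompact_univ).mono_set (Set.subset_univ _)
  have hI0 : 0 < I0 := by
    apply (setIntegral_pos_iff_support_of_nonneg_ae ?_ hint).2
    · have : Function.support (fun x => 2 * NN x) ∩ ZZᶜ = ZZᶜ := by
        apply Set.inter_eq_right.2
        intro x hx
        simp only [Function.mem_support, ne_eq, mul_eq_zero, OfNat.ofNat_ne_zero, false_or]
        rw [NN_eq_zero_iff]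
        exact hx
      rw [this]
      apply isClosed_ZZ.isOpen_compl.measure_pos volume
      rw [Set.nonempty_compl]
      intro h
      have := nowhereDense_ZZ
      rw [isClosed_ZZ.isNowhereDense_iff, h, interior_univ] at this
      exact Set.univ_nonempty.ne_empty this
    · exact Filter.Eventually.of_forall fun x => by
        have := NN_nonneg x
        simp only [Pi.zero_apply]
        positivity
  refine ⟨(√I0)⁻¹, by positivity, ?_⟩
  simp only [normSqM_Psi]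
  rw [integral_const_mul]
  change (√I0)⁻¹ ^ 2 * I0 = 1
  rw [inv_pow, Real.sq_sqrt hI0.le]
  exact inv_mul_cancel₀ hI0.ne'

lemma smooth_trig (α β : Fin 3 → ℂ) : ContDiff ℝ ∞ (fun z : Fin 3 → ℝ =>
        ∑ k, (α k * ((Real.sin (z k) : ℝ) : ℂ) + β k * ((Real.cos (z k) : ℝ) : ℂ))) := by
  apply ContDiff.sum
  intro k _
  have hk : ContDiff ℝ ∞ (fun z : Fin 3 → ℝ => z k) := contDiff_apply ℝ ℝ k
  have h1 : ContDiff ℝ ∞ (fun z : Fin 3 → ℝ => ((Real.sin (z k) : ℝ) : ℂ)) :=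
    Complex.ofRealCLM.contDiff.comp hk.sin
  have h2 : ContDiff ℝ ∞ (fun z : Fin 3 → ℝ => ((Real.cos (z k) : ℝ) : ℂ)) :=
    Complex.ofRealCLM.contDiff.comp hk.cos
  exact (contDiff_const.mul h1).add (contDiff_const.mul h2)

lemma smooth_Psi (m : ℕ) (κ : ℝ) (a : Fin 2) (b : Fin (4 + m)) :
    ContDiff ℝ ∞ (fun y : Fin 3 → ℝ => Psi m κ (proj y) a b) := by
  refine Fin.addCases (fun b => ?_) (fun b => ?_) b
  · have h : (fun z : Fin 3 → ℝ => Psi m κ (proj z) a (Fin.castAdd m b)) =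
      fun z : Fin 3 → ℝ => (κ : ℂ) * ∑ k, (cS a b k * ((Real.sin (z k) : ℝ) : ℂ) +
        cC a b k * ((Real.cos (z k) : ℝ) : ℂ)) := by
      funext z
      rw [Psi_castAdd]
      simp [Psi0]
    rw [h]
    exact contDiff_const.mul (smooth_trig _ _)
  · have h : (fun z : Fin 3 → ℝ => Psi m κ (proj z) a (Fin.natAdd 4 b)) = fun _ => 0 := by
      funext z
      rw [Psi_natAdd]
    rw [h]
    exact contDiff_const

lemma cliff_skew (j : Fin 3) (a b : Fin 2) : star (cliff j b a) = - cliff j a b := by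
  fin_cases j <;> fin_cases a <;> fin_cases b <;> simp [cliff]

lemma B0_skew (j : Fin 3) (a b : Fin 4) : star (B0 j b a) = - B0 j a b := by
  fin_cases a <;> fin_cases b <;> simp [B0] <;> exact cliff_skew _ _ _

lemma isSU_BB (m : ℕ) : IsSUConnection (BB m) where
  smooth j a b := contDiff_const
  skew j x := by
    ext a b
    rw [Matrix.conjTranspose_apply, Matrix.neg_apply]
    refine Fin.addCases (fun a => ?_) (fun a => ?_) a <;>
    refine Fin.addCases (fun b => ?_) (fun b => ?_) b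
    · rw [BB_cc, BB_cc, B0_skew]
    · rw [BB_n, BB_cn]; simp
    · rw [BB_n, BB_cn]; simp
    · rw [BB_n, BB_n]; simp
  trace j x := by
    rw [Matrix.trace, Fin.sum_univ_add]
    simp only [Matrix.diag_apply, BB_cc, BB_n, Finset.sum_const_zero, add_zero]
    fin_cases j <;> simp [Fin.sum_univ_four, B0, cliff]

lemma isSolution (m : ℕ) (κ : ℝ) (hκ : 0 < κ) (h1 : ∫ x in ZZᶜ, normSqM (Psi m κ x) = 1) :
    IsSolution (BB m) ZZ 0 (Psi m κ) where
  closed := isClosed_ZZ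
  nowhereDense := nowhereDense_ZZ
  smoothA j := contDiffOn_const
  smoothΨ a b := (smooth_Psi m κ a b).contDiffOn
  normalised := h1
  dirac_eq y _ := dirac_Psi m κ y
  mu_eq x _ := mu_Psi m κ x
  blowup := by
    refine ⟨fun x => √(normSqM (Psi m κ x)), ?_, fun x _ => rfl, fun x => ?_⟩
    · simp only [normSqM_Psi]
      exact (continuous_const.mul (continuous_const.mul continuous_NN)).sqrt
    · simp only [normSqM_Psi]
      rw [← NN_eq_zero_iff]
      have hN := NN_nonneg x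
      rw [Real.sqrt_eq_zero (by positivity)]
      constructor
      · intro h
        have : κ ^ 2 ≠ 0 := by positivity
        rcases mul_eq_zero.1 h with h | h
        · exact absurd h this
        · linarith
      · intro h
        rw [h]
        ring

/-- **Main theorem.**  For every `n ≥ 4` there are a smooth `SU(n)`-connection `B` on the trivial
bundle over the flat torus, a closed nowhere dense set `Z` and a solution `(A, Ψ, 0)` over
`T³ \ Z` whose kernel map has no continuous extension `T³ → Gr_{n-2}(ℂⁿ)`. -/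
theorem result : ∀ n : ℕ, 4 ≤ n →
    ∃ (B : Fin 3 → T3 → Matrix (Fin n) (Fin n) ℂ) (Z : Set T3) (A : Fin 3 → T3 → ℝ)
      (Ψ : T3 → Matrix (Fin 2) (Fin n) ℂ),
      IsSUConnection B ∧ IsSolution B Z A Ψ ∧
      ¬ ∃ Φ : T3 → Gr (n - 2) n, Continuous Φ ∧
        ∀ x, x ∉ Z → (Φ x).toSubmodule = kernelMap Ψ x := by
  intro n hn
  obtain ⟨m, rfl⟩ := Nat.exists_eq_add_of_le hn
  obtain ⟨κ, hκ, h1⟩ := exists_kappa m
  refine ⟨BB m, ZZ, 0, Psi m κ, isSU_BB m, isSolution m κ hκ h1, ?_⟩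
  rintro ⟨Φ, hΦc, hΦ⟩
  -- the `(0,0)` entry of the projection
  let o : Fin (4 + m) := Fin.castAdd m 0
  have hent : Continuous fun x : T3 => (Φ x).1 o o := by
    have h1 : Continuous fun x : T3 => (Φ x).1 := continuous_subtype_val.comp hΦc
    exact h1.matrix_elem o o
  have key0 : ∀ x, x ∉ ZZ → (∀ a, Psi m κ x a o = 0) → (Φ x).1 o o = 1 := by
    intro x hx hcol
    have hmem : (Pi.single o 1 : Fin (4 + m) → ℂ) ∈ (Φ x).toSubmodule := by
      rw [hΦ x hx, kernelMap, LinearMap.mem_ker]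
      ext a
      simp [Matrix.mulVec_single, hcol a]
    obtain ⟨w, hw⟩ := hmem
    have hP : (Φ x).1.mulVec (Pi.single o 1) = Pi.single o 1 := by
      rw [← hw]
      simp only [Matrix.mulVecLin_apply, Matrix.mulVec_mulVec, (Φ x).2.2.1]
    have := congrFun hP o
    simpa [Matrix.mulVec_single] using this
  have key1 : ∀ x, x ∉ ZZ → (∀ w : Fin (4 + m) → ℂ, (Psi m κ x).mulVec w = 0 → w o = 0) →
      (Φ x).1 o o = 0 := by
    intro x hx hker
    have hmem : (Φ x).1.mulVec (Pi.single o 1) ∈ (Φ x).toSubmodule :=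
      ⟨Pi.single o 1, rfl⟩
    rw [hΦ x hx, kernelMap, LinearMap.mem_ker] at hmem
    have := hker _ hmem
    simpa [Matrix.mulVec_single] using this
  -- the two curves
  let γ0 : ℝ → T3 := fun t => proj ![t, 0, 0]
  let γ1 : ℝ → T3 := fun t => proj ![0, 0, t]
  have hγ0 : Continuous γ0 := continuous_proj.comp (by fun_prop)
  have hγ1 : Continuous γ1 := continuous_proj.comp (by fun_prop)
  have hsin : ∀ t ∈ Set.Ioo (0 : ℝ) 1, 0 < Real.sin t := fun t ht =>
    Real.sin_pos_of_pos_of_lt_pi ht.1 (by linarith [Real.pi_gt_three, ht.2])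
  have e0 : ∀ t ∈ Set.Ioo (0 : ℝ) 1, (Φ (γ0 t)).1 o o = 1 := by
    intro t ht
    apply key0
    · rintro ⟨h, -⟩
      exact (hsin t ht).ne' (by simpa [γ0] using h)
    · intro a
      rw [Psi_castAdd, Psi0_eq]
      fin_cases a <;> simp [quatM, γ0]
  have e1 : ∀ t ∈ Set.Ioo (0 : ℝ) 1, (Φ (γ1 t)).1 o o = 0 := by
    intro t ht
    have hst := hsin t ht
    apply key1
    · rintro ⟨-, -, h, -⟩
      exact (hsin t ht).ne' (by simpa [γ1] using h)
    · intro w hw
      have c0 := congrFun hw 0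
      have c1 := congrFun hw 1
      simp only [Matrix.mulVec, dotProduct, Fin.sum_univ_add, Psi_castAdd, Psi_natAdd, zero_mul,
        Finset.sum_const_zero, add_zero, Pi.zero_apply, Psi0_eq, Fin.sum_univ_four] at c0 c1
      simp [quatM, γ1] at c0 c1
      have hκ' : (κ : ℂ) ≠ 0 := by exact_mod_cast hκ.ne'
      -- `c0 : κ I (1 - cos t) w0 + κ sin t w1 = 0`, `c1 : - κ sin t w0 - κ I (1 - cos t) w1 = 0`
      set w0 : ℂ := w (Fin.castAdd m 0) with hw0
      set w1 : ℂ := w (Fin.castAdd m 1) with hw1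
      have hkey : (κ : ℂ) * (Complex.sin t ^ 2 + (1 - Complex.cos t) ^ 2) * w0 = 0 := by
        linear_combination (-(Complex.I * (1 - Complex.cos t))) * c0 - Complex.sin t * c1 +
          (κ : ℂ) * (1 - Complex.cos t) ^ 2 * w0 * Complex.I_sq
      have hne : Complex.sin t ^ 2 + (1 - Complex.cos t) ^ 2 ≠ 0 := by
        have hre : 0 < Real.sin t ^ 2 + (1 - Real.cos t) ^ 2 := by positivity
        have : Complex.sin t ^ 2 + (1 - Complex.cos t) ^ 2 =
            ((Real.sin t ^ 2 + (1 - Real.cos t) ^ 2 : ℝ) : ℂ) := by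
          push_cast
          rfl
        rw [this]
        exact_mod_cast hre.ne'
      rcases mul_eq_zero.1 hkey with h | h
      · rcases mul_eq_zero.1 h with h | h
        · exact absurd h hκ'
        · exact absurd h hne
      · exact h
  have hfr : (nhdsWithin (0 : ℝ) (Set.Ioo (0 : ℝ) 1)).NeBot :=
    left_nhdsWithin_Ioo_neBot one_pos
  have l0 : (Φ (γ0 0)).1 o o = 1 := by
    have t1 : Filter.Tendsto (fun t => (Φ (γ0 t)).1 o o) (nhdsWithin (0 : ℝ) (Set.Ioo (0 : ℝ) 1))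
        (nhds ((Φ (γ0 0)).1 o o)) := ((hent.comp hγ0).tendsto 0).mono_left nhdsWithin_le_nhds
    have t2 : Filter.Tendsto (fun t => (Φ (γ0 t)).1 o o) (nhdsWithin (0 : ℝ) (Set.Ioo (0 : ℝ) 1))
        (nhds 1) := by
      apply Filter.Tendsto.congr' _ tendsto_const_nhds
      filter_upwards [self_mem_nhdsWithin] with t ht
      exact (e0 t ht).symm
    exact tendsto_nhds_unique t1 t2
  have l1 : (Φ (γ1 0)).1 o o = 0 := by
    have t1 : Filter.Tendsto (fun t => (Φ (γ1 t)).1 o o) (nhdsWithin (0 : ℝ) (Set.Ioo (0 : ℝ) 1))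
        (nhds ((Φ (γ1 0)).1 o o)) := ((hent.comp hγ1).tendsto 0).mono_left nhdsWithin_le_nhds
    have t2 : Filter.Tendsto (fun t => (Φ (γ1 t)).1 o o) (nhdsWithin (0 : ℝ) (Set.Ioo (0 : ℝ) 1))
        (nhds 0) := by
      apply Filter.Tendsto.congr' _ tendsto_const_nhds
      filter_upwards [self_mem_nhdsWithin] with t ht
      exact (e1 t ht).symm
    exact tendsto_nhds_unique t1 t2
  have h01 : γ0 0 = γ1 0 := by
    simp [γ0, γ1]
  rw [h01, l1] at l0
  exact zero_ne_one l0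

end

end Pool.Agent.Results.MP_92a303_gt.KernelMapNoExtension
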